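import Pool.Agent.NPG.StmtsD

/-!
# Squad NPY, row PIC: points in different cosets
-/

set_option autoImplicit false

open MeasureTheory Set Topology

namespace Pool.Agent.NPY.H23

open Pool.Agent.LSG Pool.Agent.NPY

theorem pic (h1 : MukStmt) : PicStmt := by
  classical
  intro G hG H hH W hWm hW0 M
  have hsing : NullSingletonClass mu := ⟨h1.2.2.1⟩
  induction M with
  | zero => exact ⟨∅, by simp, rfl, by simp⟩
  | succ M ih =>
    obtain ⟨X, hX1, hX2, hX3⟩ := ih
    set Y : Set K := ⋃ x ∈ X, (fun h => x + h) '' (H : Set K) with hY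
    have hYf : Y.Finite := X.finite_toSet.biUnion fun x _ => hH.image _
    have hY0 : mu Y = 0 := hYf.measure_zero mu
    have hpos : 0 < mu (W \ Y) := by
      rw [measure_sdiff_null hY0]
      exact hW0
    obtain ⟨z, hzG, hzZ⟩ := hG.full (W \ Y) (hWm.diff hYf.measurableSet) hpos
    have hzX : ∀ x ∈ X, z - x ∉ H := by
      intro x hx hm
      apply hzZ.2
      rw [hY]
      simp only [Set.mem_iUnion]
      exact ⟨x, hx, z - x, hm, add_sub_cancel x z⟩
    have hzn : z ∉ X := by
      intro hz
      have := hzX z hz
      rw [sub_self] at this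
      exact this H.zero_mem
    refine ⟨insert z X, ?_, ?_, ?_⟩
    · intro x hx
      rcases Finset.mem_insert.1 hx with rfl | hx
      · exact ⟨hzG, hzZ.1⟩
      · exact hX1 x hx
    · rw [Finset.card_insert_of_notMem hzn, hX2]
    · intro x hx y hy hxy
      rcases Finset.mem_insert.1 hx with hx' | hx'
      · rcases Finset.mem_insert.1 hy with hy' | hy'
        · rw [hx', hy']
        · exact absurd (hx' ▸ hxy) (hzX y hy')
      · rcases Finset.mem_insert.1 hy with hy' | hy'
        · exfalso
          apply hzX x hx'
          have h6 := H.neg_mem hxy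
          rwa [neg_sub, hy'] at h6
        · exact hX3 x hx' y hy' hxy

end Pool.Agent.NPY.H23
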